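import Mathlib

/-!
# An injective measurable map of `(0,2)` into `(0,1)` with infinite approximate derivative everywhere
-/

namespace Pool.Agent.Results.MP_868b62_an.ExpandingInjection

open MeasureTheory Set Filter Topology
open scoped ENNReal

/-- The approximate lower limit of `g (h)` as `h → 0+`: the supremum, in the extended reals, of all
real `t` such that `|{h ∈ (0, r) : g(h) < t}| / r → 0` as `r → 0+`. -/
noncomputable def apLiminf (g : ℝ → ℝ) : EReal :=
  sSup ((fun t : ℝ => (t : EReal)) '' {t : ℝ |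
    Tendsto (fun r : ℝ => volume {h : ℝ | h ∈ Ioo 0 r ∧ g h < t} / ENNReal.ofReal r)
      (𝓝[>] 0) (𝓝 0)})

/-- `⌊2^n x⌋` -/
noncomputable def B (n : ℕ) (x : ℝ) : ℤ := ⌊2 ^ n * x⌋

/-- the binary digits -/
noncomputable def b (n : ℕ) (x : ℝ) : ℝ := if B n x % 2 = 0 then 0 else 1

lemma b_nonneg (n : ℕ) (x : ℝ) : 0 ≤ b n x := by unfold b; split_ifs <;> norm_num

lemma b_le_one (n : ℕ) (x : ℝ) : b n x ≤ 1 := by unfold b; split_ifs <;> norm_num

lemma b_cases (n : ℕ) (x : ℝ) : b n x = 0 ∨ b n x = 1 := by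
  unfold b; split_ifs
  · exact Or.inl rfl
  · exact Or.inr rfl

lemma measurable_B (n : ℕ) : Measurable (B n) := by
  unfold B
  exact Int.measurable_floor.comp (measurable_const.mul measurable_id)

lemma measurable_b (n : ℕ) : Measurable (b n) := by
  have h : Measurable fun m : ℤ => if m % 2 = 0 then (0 : ℝ) else 1 := measurable_of_countable _
  exact h.comp (measurable_B n)

lemma B_succ (n : ℕ) (x : ℝ) : B (n + 1) x / 2 = B n x := by
  unfold B
  rw [Int.ediv_eq_iff_of_pos two_pos]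
  have h1 : (2 : ℝ) ^ (n + 1) * x = 2 * (2 ^ n * x) := by ring
  constructor
  · have := Int.floor_le (2 ^ n * x)
    rw [Int.le_floor, h1]
    push_cast
    linarith
  · have := Int.lt_floor_add_one (2 ^ n * x)
    rw [Int.floor_lt, h1]
    push_cast
    linarith

lemma B_add (n : ℕ) (x : ℝ) : B n (x + (1 / 2) ^ n) = B n x + 1 := by
  unfold B
  have : (2 : ℝ) ^ n * (x + (1 / 2) ^ n) = 2 ^ n * x + 1 := by
    rw [mul_add, ← mul_pow]; norm_num
  rw [this, Int.floor_add_one]

/-- equality of `B` propagates to smaller indices -/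
lemma B_eq_of_le {x y : ℝ} {n m : ℕ} (h : n ≤ m) (hB : B m x = B m y) : B n x = B n y := by
  induction m, h using Nat.le_induction with
  | base => exact hB
  | succ m _ ih =>
    apply ih
    rw [← B_succ, ← B_succ m y, hB]

lemma b_eq_of_B {x y : ℝ} {n : ℕ} (h : B n x = B n y) : b n x = b n y := by
  unfold b; rw [h]

/-- the set of points with prescribed binary digits -/
def A (L : ℕ) (m : ℤ) (S : Finset ℕ) (ε : ℕ → ℝ) : Set ℝ :=
  {y | B L y = m ∧ ∀ n ∈ S, b n y = ε n}

lemma measurableSet_A (L : ℕ) (m : ℤ) (S : Finset ℕ) (ε : ℕ → ℝ) : MeasurableSet (A L m S ε) := by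
  have h : A L m S ε = (B L) ⁻¹' {m} ∩ ⋂ n ∈ S, (b n) ⁻¹' {ε n} := by
    ext y
    simp [A]
  rw [h]
  refine ((measurable_B L) (measurableSet_singleton _)).inter ?_
  exact S.measurableSet_biInter fun n _ => (measurable_b n) (measurableSet_singleton _)

lemma A_insert (L : ℕ) (m : ℤ) (S : Finset ℕ) (ε : ℕ → ℝ) (n : ℕ) :
    A L m (insert n S) ε = A L m S ε ∩ {y | b n y = ε n} := by
  ext y
  simp only [A, mem_ofPred_eq, Finset.mem_insert, forall_eq_or_imp, mem_inter_iff]
  tauto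

lemma vol_A (L : ℕ) (m : ℤ) (ε : ℕ → ℝ) (S : Finset ℕ) (hS : ∀ n ∈ S, L < n) :
    volume (A L m S ε) ≤ ENNReal.ofReal ((1 / 2) ^ (L + S.card)) := by
  induction S using Finset.induction_on_max with
  | empty =>
    have hp : (0 : ℝ) < 2 ^ L := by positivity
    have h : A L m ∅ ε = Ico ((m : ℝ) / 2 ^ L) ((m + 1) / 2 ^ L) := by
      ext y
      simp only [A, B, mem_ofPred_eq, Finset.notMem_empty, false_implies, implies_true, and_true,
        mem_Ico, Int.floor_eq_iff]
      rw [div_le_iff₀ hp, lt_div_iff₀ hp, mul_comm y]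
    rw [h, Real.volume_Ico]
    apply ENNReal.ofReal_le_ofReal
    rw [Finset.card_empty, add_zero, ← sub_div, add_sub_cancel_left, one_div, one_div, inv_pow]
  | insert n S hlt ih =>
    have hnS : n ∉ S := fun h => lt_irrefl _ (hlt n h)
    have ih' := ih fun k hk => hS k (Finset.mem_insert_of_mem hk)
    have hLn : L < n := hS n (Finset.mem_insert_self _ _)
    obtain ⟨n', rfl⟩ : ∃ n', n = n' + 1 := ⟨n - 1, by omega⟩
    rw [A_insert, Finset.card_insert_of_notMem hnS]
    set A' := A L m S ε with hA'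
    set A0 := A' ∩ {y | b (n' + 1) y = 0} with hA0
    set A1 := A' ∩ {y | b (n' + 1) y = 1} with hA1
    have hstab : ∀ x y : ℝ, B n' x = B n' y → x ∈ A' → y ∈ A' := by
      rintro x y hxy ⟨h1, h2⟩
      refine ⟨?_, fun k hk => ?_⟩
      · rw [← h1]
        exact (B_eq_of_le (by omega) hxy).symm
      · rw [← h2 k hk]
        have : k ≤ n' := by have := hlt k hk; omega
        exact (b_eq_of_B (B_eq_of_le this hxy)).symm
    have key : ∀ x : ℝ, B (n' + 1) x % 2 = 0 → B n' (x + (1 / 2) ^ (n' + 1)) = B n' x ∧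
        B (n' + 1) (x + (1 / 2) ^ (n' + 1)) % 2 ≠ 0 := by
      intro x hx
      rw [← B_succ, B_add, ← B_succ n' x]
      constructor <;> omega
    have key2 : ∀ x : ℝ, B (n' + 1) x % 2 ≠ 0 → B n' (x - (1 / 2) ^ (n' + 1)) = B n' x ∧
        B (n' + 1) (x - (1 / 2) ^ (n' + 1)) % 2 = 0 := by
      intro x hx
      have h1 := B_add (n' + 1) (x - (1 / 2) ^ (n' + 1))
      rw [sub_add_cancel] at h1
      rw [← B_succ, ← B_succ n' x]
      constructor <;> omega
    have hb0 : ∀ y, b (n' + 1) y = 0 ↔ B (n' + 1) y % 2 = 0 := by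
      intro y; unfold b; split_ifs with h <;> simp [h]
    have hb1 : ∀ y, b (n' + 1) y = 1 ↔ B (n' + 1) y % 2 ≠ 0 := by
      intro y; unfold b; split_ifs with h <;> simp [h]
    have h01 : volume A0 ≤ volume A1 := by
      rw [← measure_preimage_add_right volume ((1 / 2 : ℝ) ^ (n' + 1)) A1]
      refine measure_mono fun x hx => ?_
      obtain ⟨hx1, hx2⟩ := hx
      obtain ⟨k1, k2⟩ := key x ((hb0 x).1 hx2)
      exact ⟨hstab x _ k1.symm hx1, (hb1 _).2 k2⟩
    have h10 : volume A1 ≤ volume A0 := by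
      rw [← measure_preimage_add_right volume (-(1 / 2 : ℝ) ^ (n' + 1)) A0]
      refine measure_mono fun x hx => ?_
      obtain ⟨hx1, hx2⟩ := hx
      obtain ⟨k1, k2⟩ := key2 x ((hb1 x).1 hx2)
      exact ⟨hstab x _ k1.symm hx1, (hb0 _).2 k2⟩
    have heq : volume A0 = volume A1 := le_antisymm h01 h10
    have hsum : volume A0 + volume A1 = volume A' := by
      have hm : MeasurableSet {y | b (n' + 1) y = 0} := (measurable_b _) (measurableSet_singleton 0)
      have h1 := measure_inter_add_sdiff A' hm (μ := volume)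
      have h2 : A' \ {y | b (n' + 1) y = 0} = A1 := by
        ext y
        simp only [hA1, Set.mem_sdiff, mem_inter_iff, mem_ofPred_eq]
        rcases b_cases (n' + 1) y with h | h <;> simp [h]
      rw [h2] at h1
      exact h1
    have hhalf : ∀ e : ℝ, volume (A' ∩ {y | b (n' + 1) y = e}) ≤ volume A' / 2 := by
      have hA0half : volume A0 = volume A' / 2 := by
        rw [ENNReal.eq_div_iff two_ne_zero ENNReal.ofNat_ne_top, two_mul, ← hsum, ← heq]
      intro e
      by_cases h0 : e = 0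
      · rw [h0]; exact hA0half.le
      · by_cases h1 : e = 1
        · rw [h1]
          exact (h10.trans hA0half.le)
        · have : A' ∩ {y | b (n' + 1) y = e} = ∅ := by
            ext y
            simp only [mem_inter_iff, mem_ofPred_eq, mem_empty_iff_false, iff_false, not_and]
            intro _ hy
            rcases b_cases (n' + 1) y with h | h
            · exact h0 (hy ▸ h)
            · exact h1 (hy ▸ h)
          rw [this, measure_empty]
          exact zero_le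
    refine (hhalf _).trans ?_
    calc volume A' / 2 ≤ ENNReal.ofReal ((1 / 2) ^ (L + S.card)) / 2 := by gcongr
      _ = ENNReal.ofReal ((1 / 2) ^ (L + (S.card + 1))) := by
        rw [show (2 : ℝ≥0∞) = ENNReal.ofReal 2 by norm_num, ← ENNReal.ofReal_div_of_pos two_pos]
        congr 1
        rw [← add_assoc, pow_succ]
        ring

/-- the set of small shifts that preserve many digits is small -/
lemma vol_shift (x : ℝ) (i : ℕ) (S : Finset ℕ) (hS : ∀ n ∈ S, i < n) :
    volume {h : ℝ | h ∈ Ioo 0 ((1 / 2 : ℝ) ^ i) ∧ ∀ n ∈ S, b n (x + h) = b n x} ≤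
      ENNReal.ofReal (2 * (1 / 2) ^ (i + S.card)) := by
  set ε : ℕ → ℝ := fun n => b n x with hε
  have hsub : {h : ℝ | h ∈ Ioo 0 ((1 / 2 : ℝ) ^ i) ∧ ∀ n ∈ S, b n (x + h) = b n x} ⊆
      (fun h => h + x) ⁻¹' (A i (B i x) S ε ∪ A i (B i x + 1) S ε) := by
    rintro h ⟨⟨h1, h2⟩, h3⟩
    have h4 : B i (h + x) = B i x ∨ B i (h + x) = B i x + 1 := by
      have e1 : B i x ≤ B i (h + x) := by
        unfold B
        apply Int.floor_le_floor
        have : (0 : ℝ) < 2 ^ i := by positivity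
        nlinarith
      have e2 : B i (h + x) ≤ B i x + 1 := by
        rw [← B_add]
        unfold B
        apply Int.floor_le_floor
        have : (0 : ℝ) < 2 ^ i := by positivity
        nlinarith
      omega
    rcases h4 with h4 | h4
    · exact Or.inl ⟨h4, fun n hn => by
        show b n (h + x) = b n x
        rw [add_comm]; exact h3 n hn⟩
    · exact Or.inr ⟨h4, fun n hn => by
        show b n (h + x) = b n x
        rw [add_comm]; exact h3 n hn⟩
  refine (measure_mono hsub).trans ?_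
  rw [measure_preimage_add_right]
  refine (measure_union_le _ _).trans ?_
  refine (add_le_add (vol_A i _ ε S hS) (vol_A i _ ε S hS)).trans ?_
  rw [← ENNReal.ofReal_add (by positivity) (by positivity)]
  apply ENNReal.ofReal_le_ofReal
  linarith

/-- the order of the digits: all digits in the even places, every eighth digit in the odd ones -/
def f (k : ℕ) : ℕ := if k % 2 = 0 then k / 2 else 8 * (k / 2)

/-- The map. -/
noncomputable def phi (x : ℝ) : ℝ := 1 / 4 + ∑' k : ℕ, b (f k) x * (1 / 3) ^ (k + 1)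

lemma summable_geo : Summable fun k : ℕ => ((1 : ℝ) / 3) ^ (k + 1) := by
  have h := (summable_geometric_of_lt_one (r := (1 : ℝ) / 3) (by norm_num) (by norm_num)).mul_left
    (1 / 3)
  refine h.congr fun k => ?_
  rw [pow_succ]; ring

lemma tsum_geo (j : ℕ) : ∑' k : ℕ, ((1 : ℝ) / 3) ^ (k + j + 1) = 1 / 2 * (1 / 3) ^ j := by
  have h : ∀ k : ℕ, ((1 : ℝ) / 3) ^ (k + j + 1) = (1 / 3) ^ (j + 1) * (1 / 3) ^ k := by
    intro k; rw [← pow_add]; congr 1; ring
  simp only [h]
  rw [tsum_mul_left, tsum_geometric_of_lt_one (by norm_num) (by norm_num), pow_succ]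
  ring

lemma summable_digits (c : ℕ → ℝ) (h0 : ∀ k, |c k| ≤ 1) :
    Summable fun k : ℕ => c k * ((1 : ℝ) / 3) ^ (k + 1) := by
  refine Summable.of_norm_bounded summable_geo fun k => ?_
  rw [norm_mul, Real.norm_eq_abs, Real.norm_eq_abs, abs_of_pos (by positivity : (0 : ℝ) < (1 / 3) ^ (k + 1))]
  have : (0 : ℝ) < (1 / 3) ^ (k + 1) := by positivity
  have := h0 k
  nlinarith

/-- Cantor digits are separated. -/
lemma separated (c : ℕ → ℝ) (h1 : ∀ k, c k = 0 ∨ c k = 1 ∨ c k = -1) {K : ℕ}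
    (h : |∑' k : ℕ, c k * ((1 : ℝ) / 3) ^ (k + 1)| < 1 / 2 * (1 / 3) ^ (K + 1)) :
    ∀ j ≤ K, c j = 0 := by
  by_contra hcon
  push Not at hcon
  obtain ⟨j0, hj0, hcj0⟩ := hcon
  obtain ⟨j, hcj, hjK, hmin⟩ : ∃ j, c j ≠ 0 ∧ j ≤ K ∧ ∀ k < j, c k = 0 := by
    classical
    have hex : ∃ j, c j ≠ 0 := ⟨j0, hcj0⟩
    exact ⟨Nat.find hex, Nat.find_spec hex, (Nat.find_min' hex hcj0).trans hj0,
      fun k hk => not_not.1 (Nat.find_min hex hk)⟩
  have habs : ∀ k, |c k| ≤ 1 := by
    intro k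
    rcases h1 k with h | h | h <;> rw [h] <;> norm_num
  have hs := summable_digits c habs
  have h2 := hs.sum_add_tsum_nat_add (j + 1)
  rw [Finset.sum_range_succ, Finset.sum_eq_zero (fun k hk => by
    rw [hmin k (Finset.mem_range.1 hk), zero_mul]), zero_add] at h2
  have h3 : |∑' k : ℕ, c (k + (j + 1)) * ((1 : ℝ) / 3) ^ (k + (j + 1) + 1)| ≤
      1 / 2 * (1 / 3) ^ (j + 1) := by
    have hs2 : Summable fun k : ℕ => c (k + (j + 1)) * ((1 : ℝ) / 3) ^ (k + (j + 1) + 1) :=
      (summable_nat_add_iff (f := fun k : ℕ => c k * ((1 : ℝ) / 3) ^ (k + 1)) (j + 1)).2 hs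
    rw [← tsum_geo (j + 1), ← Real.norm_eq_abs]
    refine (norm_tsum_le_tsum_norm hs2.norm).trans ?_
    have hs3 : Summable fun k : ℕ => ((1 : ℝ) / 3) ^ (k + (j + 1) + 1) :=
      (summable_nat_add_iff (f := fun k : ℕ => ((1 : ℝ) / 3) ^ (k + 1)) (j + 1)).2 summable_geo
    refine Summable.tsum_le_tsum (fun k => ?_) hs2.norm hs3
    rw [norm_mul, Real.norm_eq_abs, Real.norm_eq_abs,
      abs_of_pos (by positivity : (0 : ℝ) < (1 / 3) ^ (k + (j + 1) + 1))]
    have h4 : (0 : ℝ) < (1 / 3) ^ (k + (j + 1) + 1) := by positivity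
    have := habs (k + (j + 1))
    nlinarith
  have h4 : (1 / 3 : ℝ) ^ (j + 1) ≤ |∑' k : ℕ, c k * ((1 : ℝ) / 3) ^ (k + 1)| +
      1 / 2 * (1 / 3) ^ (j + 1) := by
    have h5 : |c j * (1 / 3 : ℝ) ^ (j + 1)| = (1 / 3) ^ (j + 1) := by
      rw [abs_mul, abs_of_pos (by positivity : (0 : ℝ) < (1 / 3) ^ (j + 1))]
      rcases h1 j with h | h | h
      · exact absurd h hcj
      · rw [h]; norm_num
      · rw [h]; norm_num
    have h6 : c j * (1 / 3 : ℝ) ^ (j + 1) = (∑' k : ℕ, c k * ((1 : ℝ) / 3) ^ (k + 1)) -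
        ∑' k : ℕ, c (k + (j + 1)) * ((1 : ℝ) / 3) ^ (k + (j + 1) + 1) := by linarith
    have h7 := abs_sub (∑' k : ℕ, c k * ((1 : ℝ) / 3) ^ (k + 1))
      (∑' k : ℕ, c (k + (j + 1)) * ((1 : ℝ) / 3) ^ (k + (j + 1) + 1))
    rw [← h6, h5] at h7
    linarith
  have h5 : (1 / 3 : ℝ) ^ (K + 1) ≤ (1 / 3) ^ (j + 1) :=
    pow_le_pow_of_le_one (by norm_num) (by norm_num) (by omega)
  linarith

lemma phi_sub (x y : ℝ) : phi y - phi x = ∑' k : ℕ, (b (f k) y - b (f k) x) * (1 / 3) ^ (k + 1) := by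
  unfold phi
  have hx := summable_digits (fun k => b (f k) x) fun k => by
    rw [abs_of_nonneg (b_nonneg _ _)]; exact b_le_one _ _
  have hy := summable_digits (fun k => b (f k) y) fun k => by
    rw [abs_of_nonneg (b_nonneg _ _)]; exact b_le_one _ _
  rw [add_sub_add_left_eq_sub, ← hy.tsum_sub hx]
  refine tsum_congr fun k => ?_
  ring

lemma digits_eq {x y : ℝ} {K : ℕ} (h : |phi y - phi x| < 1 / 2 * (1 / 3) ^ (K + 1)) :
    ∀ k ≤ K, b (f k) y = b (f k) x := by
  rw [phi_sub] at h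
  have := separated (fun k => b (f k) y - b (f k) x) (fun k => by
    rcases b_cases (f k) y with h1 | h1 <;> rcases b_cases (f k) x with h2 | h2 <;>
      simp [h1, h2]) h
  intro k hk
  have := this k hk
  linarith

lemma measurable_phi : Measurable phi := by
  have h : Tendsto (fun (N : ℕ) (x : ℝ) => 1 / 4 + ∑ k ∈ Finset.range N, b (f k) x * (1 / 3) ^ (k + 1))
      atTop (𝓝 phi) := by
    rw [tendsto_pi_nhds]
    intro x
    have hx := summable_digits (fun k => b (f k) x) fun k => by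
      rw [abs_of_nonneg (b_nonneg _ _)]; exact b_le_one _ _
    exact tendsto_const_nhds.add hx.hasSum.tendsto_sum_nat
  refine measurable_of_tendsto_metrizable (fun N => ?_) h
  refine measurable_const.add ?_
  exact Finset.measurable_fun_sum _ fun k _ => (measurable_b _).mul_const _

lemma phi_mem (x : ℝ) : phi x ∈ Ioo (0 : ℝ) 1 := by
  have hx := summable_digits (fun k => b (f k) x) fun k => by
    rw [abs_of_nonneg (b_nonneg _ _)]; exact b_le_one _ _
  have h1 : 0 ≤ ∑' k : ℕ, b (f k) x * ((1 : ℝ) / 3) ^ (k + 1) :=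
    tsum_nonneg fun k => mul_nonneg (b_nonneg _ _) (by positivity)
  have h2 : ∑' k : ℕ, b (f k) x * ((1 : ℝ) / 3) ^ (k + 1) ≤ 1 / 2 := by
    have h3 := tsum_geo 0
    rw [pow_zero, mul_one] at h3
    rw [← h3]
    refine Summable.tsum_le_tsum (fun k => ?_) hx summable_geo
    have : (0 : ℝ) < (1 / 3) ^ (k + 1) := by positivity
    have := b_le_one (f k) x
    simp only [add_zero]
    nlinarith
  unfold phi
  constructor <;> linarith

lemma phi_inj : InjOn phi (Ioo 0 2) := by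
  intro x hx y hy hxy
  have hdig : ∀ n, b n x = b n y := by
    intro n
    have h := digits_eq (x := y) (y := x) (K := 2 * n) (by rw [hxy, sub_self, abs_zero]; positivity)
      (2 * n) le_rfl
    have hf : f (2 * n) = n := by
      unfold f
      rw [if_pos (by omega)]
      omega
    rwa [hf] at h
  have hBeq : ∀ n, B n x = B n y := by
    intro n
    induction n with
    | zero =>
      have hB0 : ∀ z ∈ Ioo (0 : ℝ) 2, B 0 z = 0 ∨ B 0 z = 1 := by
        intro z hz
        unfold B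
        rw [pow_zero, one_mul]
        have h1 : 0 ≤ ⌊z⌋ := Int.floor_nonneg.2 hz.1.le
        have h2 : ⌊z⌋ < 2 := by rw [Int.floor_lt]; exact_mod_cast hz.2
        omega
      have hd := hdig 0
      unfold b at hd
      rcases hB0 x hx with h1 | h1 <;> rcases hB0 y hy with h2 | h2 <;> rw [h1, h2] at hd ⊢ <;>
        norm_num at hd
    | succ n ih =>
      have h1 := B_succ n x
      have h2 := B_succ n y
      have hd := hdig (n + 1)
      unfold b at hd
      by_cases c1 : B (n + 1) x % 2 = 0 <;> by_cases c2 : B (n + 1) y % 2 = 0 <;>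
        simp only [c1, c2, if_true, if_false] at hd
      · omega
      · norm_num at hd
      · norm_num at hd
      · omega
  by_contra hne
  have hpos : 0 < |x - y| := abs_pos.2 (sub_ne_zero.2 hne)
  obtain ⟨n, hn⟩ := exists_pow_lt_of_lt_one hpos (by norm_num : (1 / 2 : ℝ) < 1)
  have h1 : |2 ^ n * x - 2 ^ n * y| < 1 := Int.abs_sub_lt_one_of_floor_eq_floor (hBeq n)
  rw [← mul_sub, abs_mul, abs_of_pos (by positivity : (0 : ℝ) < 2 ^ n)] at h1
  have h2 : (2 : ℝ) ^ n * (1 / 2) ^ n = 1 := by rw [← mul_pow]; norm_num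
  have h3 : (0 : ℝ) < 2 ^ n := by positivity
  nlinarith

/-- For every `N` and `t`, at all small scales the shifts with small difference quotient have small
density. -/
lemma density (x t : ℝ) (N : ℕ) : ∀ᶠ r : ℝ in 𝓝[>] 0,
    volume {h : ℝ | h ∈ Ioo 0 r ∧ |(phi (x + h) - phi x) / h| < t} / ENNReal.ofReal r ≤
      ENNReal.ofReal (4 * (1 / 2) ^ N) := by
  -- the scale from which on the estimate holds
  obtain ⟨Q, hQ⟩ : ∃ Q : ℕ, 2 * |t| * 9 ^ (N + 1) < 2 ^ Q :=
    pow_unbounded_of_one_lt _ one_lt_two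
  have h1 : ∀ᶠ r : ℝ in 𝓝[>] 0, r < (1 / 2) ^ (2 * Q + 16) := by
    have : Iio ((1 / 2 : ℝ) ^ (2 * Q + 16)) ∈ 𝓝[>] (0 : ℝ) :=
      mem_nhdsWithin_of_mem_nhds (Iio_mem_nhds (by positivity))
    exact this
  filter_upwards [h1, self_mem_nhdsWithin] with r hr hr0
  have hr0' : 0 < r := hr0
  have hr1 : r ≤ 1 := hr.le.trans (pow_le_one₀ (by norm_num) (by norm_num))
  obtain ⟨i, hi1, hi2⟩ := exists_nat_pow_near_of_lt_one hr0' hr1
    (by norm_num : (0 : ℝ) < 1 / 2) (by norm_num : (1 / 2 : ℝ) < 1)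
  have hiQ : 2 * Q + 16 ≤ i + 1 := by
    by_contra hcon
    push Not at hcon
    have : (1 / 2 : ℝ) ^ (2 * Q + 16) ≤ (1 / 2) ^ (i + 1) :=
      pow_le_pow_of_le_one (by norm_num) (by norm_num) hcon.le
    linarith
  set q := i / 8 with hq
  set S : Finset ℕ := (Finset.Ioc q (q + N)).image fun a => 8 * a with hS
  have hScard : S.card = N := by
    rw [hS, Finset.card_image_of_injective _ (fun a b h => by simpa using h), Nat.card_Ioc]
    omega
  have hSi : ∀ n ∈ S, i < n := by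
    intro n hn
    obtain ⟨a, ha, rfl⟩ := Finset.mem_image.1 hn
    rw [Finset.mem_Ioc] at ha
    omega
  set K := 2 * (q + N) + 1 with hK
  -- the threshold
  have hthr : |t| * (1 / 2 : ℝ) ^ i ≤ 1 / 2 * (1 / 3) ^ (K + 1) := by
    have e1 : (1 / 3 : ℝ) ^ (K + 1) = (1 / 9) ^ (q + N + 1) := by
      rw [show (1 / 9 : ℝ) = (1 / 3) ^ 2 by norm_num, ← pow_mul]
      congr 1
    have e2 : (9 : ℝ) ^ q * 2 ^ Q ≤ 2 ^ i := by
      have h9 : (9 : ℝ) ^ q ≤ 2 ^ (4 * q) := by
        rw [pow_mul]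
        exact pow_le_pow_left₀ (by norm_num) (by norm_num) q
      calc (9 : ℝ) ^ q * 2 ^ Q ≤ 2 ^ (4 * q) * 2 ^ Q := by gcongr
        _ = 2 ^ (4 * q + Q) := by rw [pow_add]
        _ ≤ 2 ^ i := pow_le_pow_right₀ (by norm_num) (by omega)
    have e3 : 2 * |t| * 9 ^ (q + N + 1) ≤ 2 ^ i := by
      have : (9 : ℝ) ^ (q + N + 1) = 9 ^ q * 9 ^ (N + 1) := by rw [← pow_add]; congr 1
      rw [this]
      calc 2 * |t| * (9 ^ q * 9 ^ (N + 1)) = 9 ^ q * (2 * |t| * 9 ^ (N + 1)) := by ring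
        _ ≤ 9 ^ q * 2 ^ Q := by gcongr
        _ ≤ 2 ^ i := e2
    rw [e1, one_div_pow, one_div_pow, mul_one_div, mul_one_div, div_le_div_iff₀ (by positivity)
      (by positivity)]
    linarith
  have hsub : {h : ℝ | h ∈ Ioo 0 r ∧ |(phi (x + h) - phi x) / h| < t} ⊆
      {h : ℝ | h ∈ Ioo 0 ((1 / 2 : ℝ) ^ i) ∧ ∀ n ∈ S, b n (x + h) = b n x} := by
    rintro h ⟨⟨h1, h2⟩, h3⟩
    refine ⟨⟨h1, h2.trans_le hi2⟩, fun n hn => ?_⟩
    obtain ⟨a, ha, rfl⟩ := Finset.mem_image.1 hn
    rw [Finset.mem_Ioc] at ha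
    rw [abs_div, abs_of_pos h1, div_lt_iff₀ h1] at h3
    have h4 : |phi (x + h) - phi x| < 1 / 2 * (1 / 3) ^ (K + 1) := by
      refine lt_of_lt_of_le h3 (le_trans ?_ hthr)
      have h5 : h ≤ (1 / 2) ^ i := (h2.trans_le hi2).le
      have h6 : t ≤ |t| := le_abs_self t
      calc t * h ≤ |t| * h := mul_le_mul_of_nonneg_right h6 h1.le
        _ ≤ |t| * (1 / 2) ^ i := mul_le_mul_of_nonneg_left h5 (abs_nonneg t)
    have h5 := digits_eq h4 (2 * a + 1) (by omega)
    have hf : f (2 * a + 1) = 8 * a := by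
      unfold f
      rw [if_neg (by omega)]
      omega
    rwa [hf] at h5
  have h2 := (measure_mono hsub).trans (vol_shift x i S hSi)
  rw [hScard] at h2
  have h3 : ENNReal.ofReal (2 * (1 / 2) ^ (i + N)) ≤
      ENNReal.ofReal (4 * (1 / 2) ^ N) * ENNReal.ofReal r := by
    rw [← ENNReal.ofReal_mul (by positivity)]
    apply ENNReal.ofReal_le_ofReal
    have e1 : 2 * (1 / 2 : ℝ) ^ (i + N) = 4 * (1 / 2) ^ N * (1 / 2) ^ (i + 1) := by
      rw [pow_add, pow_succ]; ring
    rw [e1]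
    exact mul_le_mul_of_nonneg_left hi1.le (by positivity)
  exact ENNReal.div_le_of_le_mul (h2.trans h3)

/-- There is a measurable map `φ : (0,2) → (0,1)`, injective on `(0,2)`, such that at every point
`x` of `(0,2)` the approximate limit of `|φ(x+h) - φ(x)| / h` as `h → 0+` is `+∞`. -/
theorem result : ∃ φ : ℝ → ℝ, Measurable φ ∧ InjOn φ (Ioo 0 2) ∧ MapsTo φ (Ioo 0 2) (Ioo 0 1) ∧
    ∀ x ∈ Ioo (0 : ℝ) 2, apLiminf (fun h => |(φ (x + h) - φ x) / h|) = ⊤ := by
  refine ⟨phi, measurable_phi, phi_inj, fun x _ => phi_mem x, fun x _ => ?_⟩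
  have hall : ∀ t : ℝ, Tendsto (fun r : ℝ =>
      volume {h : ℝ | h ∈ Ioo 0 r ∧ |(phi (x + h) - phi x) / h| < t} / ENNReal.ofReal r)
      (𝓝[>] 0) (𝓝 0) := by
    intro t
    rw [ENNReal.tendsto_nhds_zero]
    intro ε hε
    obtain ⟨N, hN⟩ : ∃ N : ℕ, ENNReal.ofReal (4 * (1 / 2) ^ N) ≤ ε := by
      have h1 : Tendsto (fun N : ℕ => ENNReal.ofReal (4 * (1 / 2) ^ N)) atTop (𝓝 0) := by
        have h2 : Tendsto (fun N : ℕ => 4 * (1 / 2 : ℝ) ^ N) atTop (𝓝 (4 * 0)) :=
          (tendsto_pow_atTop_nhds_zero_of_lt_one (by norm_num) (by norm_num)).const_mul 4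
        rw [mul_zero] at h2
        have h3 := ENNReal.tendsto_ofReal h2
        rwa [ENNReal.ofReal_zero] at h3
      exact ((ENNReal.tendsto_nhds_zero.1 h1) ε hε).exists
    filter_upwards [density x t N] with r hr
    exact hr.trans hN
  unfold apLiminf
  rw [eq_top_iff]
  refine le_of_forall_lt fun a ha => ?_
  obtain ⟨t, ht1, -⟩ := EReal.lt_iff_exists_real_btwn.1 ha
  refine ht1.trans_le (le_sSup ⟨t, hall t, rfl⟩)

end Pool.Agent.Results.MP_868b62_an.ExpandingInjection
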